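import Pool.Agent.W937.FG.Stm

set_option autoImplicit false

/-! FG-E1: error runs of the budget translation. -/

namespace Pool.Agent.W52.FG.E1

open Function Pool.Agent.W937.FG

theorem sum_upd (r : ℕ → ℕ) (i v R : ℕ) (h : i < R) :
    ∑ j ∈ Finset.range R, update r i v j + r i = ∑ j ∈ Finset.range R, r j + v := by
  have h1 := Finset.add_sum_erase (Finset.range R) (update r i v) (Finset.mem_range.2 h)
  have h2 := Finset.add_sum_erase (Finset.range R) r (Finset.mem_range.2 h)
  have h3 : ∑ j ∈ (Finset.range R).erase i, update r i v j =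
      ∑ j ∈ (Finset.range R).erase i, r j :=
    Finset.sum_congr rfl fun j hj => update_of_ne (Finset.ne_of_mem_erase hj) _ _
  rw [update_self] at h1
  omega

theorem upd_N (x t y : ℕ) (a r : ℕ → ℕ) : update (st x t a r) Reg.N y = st y t a r := by
  funext j
  cases j with
  | N => rw [update_self]; rfl
  | T => rw [update_of_ne (by simp)]; rfl
  | A j => rw [update_of_ne (by simp)]; rfl
  | M i => rw [update_of_ne (by simp)]; rfl

theorem upd_M (x t i y : ℕ) (a r : ℕ → ℕ) :
    update (st x t a r) (Reg.M i) y = st x t a (update r i y) := by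
  funext j
  cases j with
  | N => rw [update_of_ne (by simp)]; rfl
  | T => rw [update_of_ne (by simp)]; rfl
  | A j => rw [update_of_ne (by simp)]; rfl
  | M k =>
    by_cases h : k = i
    · subst h
      rw [update_self]
      show y = update r k y k
      rw [update_self]
    · rw [update_of_ne (by simpa using h)]
      show r k = update r i y k
      rw [update_of_ne h]

/-- induction for runs of a star -/
theorem star_ind {T K : Type} [DecidableEq K] {e : Bool} {p : Prog T K}
    {C : (K → ℕ) → List T → (K → ℕ) → Prop} (h0 : ∀ s, C s [] s)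
    (h1 : ∀ s t u w x, Exec e p s w t → Exec e (.star p) t x u → C t x u → C s (w ++ x) u)
    {s : K → ℕ} {w : List T} {s' : K → ℕ} (h : Exec e (.star p) s w s') : C s w s' := by
  generalize hq : Prog.star p = q at h
  induction h with
  | op h => cases hq
  | seq h1 h2 _ _ => cases hq
  | altl h _ => cases hq
  | altr h _ => cases hq
  | star_nil => exact h0 _
  | star_cons ha hb _ ihb =>
    cases hq
    exact h1 _ _ _ _ _ ha hb (ihb rfl)

/-- the conclusion for one run -/
def Q (M : Prog Empty ℕ) (R x t : ℕ) (a r : ℕ → ℕ) (s' : Reg → ℕ) : Prop :=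
  ∃ (x' : ℕ) (r' : ℕ → ℕ), s' = st x' t a r' ∧ (∀ i, R ≤ i → r' i = r i) ∧
    x + ∑ i ∈ Finset.range R, r i ≤ x' + ∑ i ∈ Finset.range R, r' i ∧
    (x' + ∑ i ∈ Finset.range R, r' i = x + ∑ i ∈ Finset.range R, r i →
      MExec M (x, r) (x', r'))

theorem main : PropE1 := by
  intro T M
  induction M with
  | op o =>
    cases o with
    | nop =>
      refine ⟨0, fun R _ x t a r w s' h => ?_⟩
      cases h with
      | op h =>
        obtain ⟨h1, h2⟩ := h
        exact ⟨h1, x, r, h2, fun _ _ => rfl, le_rfl, fun _ => MExec.nop _⟩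
    | inc i =>
      refine ⟨i + 1, fun R hR x t a r w s' h => ?_⟩
      cases h with
      | seq ha hb =>
        cases ha with
        | op ha =>
          cases hb with
          | op hb =>
            obtain ⟨h1, h2⟩ := ha
            obtain ⟨h3, h4⟩ := hb
            subst h1 h3
            have hs := sum_upd r i (r i + 1) R (by omega)
            refine ⟨rfl, ?_⟩
            rcases h2 with ⟨h2, h5⟩ | ⟨_, h5⟩
            · have h2' : 0 < x := h2
              rw [upd_N] at h5
              subst h5
              rw [upd_M] at h4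
              have e1 : st (st x t a r Reg.N - 1) t a r (Reg.M i) + 1 = r i + 1 := rfl
              rw [e1] at h4
              refine ⟨x - 1, update r i (r i + 1), h4, fun j hj => update_of_ne (by omega) _ _,
                by omega, fun _ => ?_⟩
              have h6 := MExec.inc i (x - 1) r
              rwa [Nat.sub_add_cancel h2'] at h6
            · subst h5
              rw [upd_M] at h4
              refine ⟨x, update r i (r i + 1), h4, fun j hj => update_of_ne (by omega) _ _,
                by omega, fun h6 => ?_⟩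
              omega
    | dec i =>
      refine ⟨i + 1, fun R hR x t a r w s' h => ?_⟩
      cases h with
      | seq ha hb =>
        cases ha with
        | op ha =>
          cases hb with
          | op hb =>
            obtain ⟨h1, h2⟩ := ha
            obtain ⟨h3, h4⟩ := hb
            subst h1 h3
            have hs := sum_upd r i (r i - 1) R (by omega)
            refine ⟨rfl, ?_⟩
            rcases h2 with ⟨h2, h5⟩ | ⟨_, h5⟩
            · have h2' : 0 < r i := h2
              rw [upd_M] at h5
              subst h5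
              rw [upd_N] at h4
              refine ⟨x + 1, update r i (r i - 1), h4, fun j hj => update_of_ne (by omega) _ _,
                by omega, fun _ => MExec.dec i x r h2'⟩
            · subst h5
              rw [upd_N] at h4
              refine ⟨x + 1, r, h4, fun j hj => rfl, by omega, fun h6 => ?_⟩
              omega
    | zero i =>
      refine ⟨0, fun R _ x t a r w s' h => ?_⟩
      cases h with
      | op h =>
        obtain ⟨h1, h2, h3⟩ := h
        exact ⟨h1, x, r, h3, fun _ _ => rfl, le_rfl, fun _ => MExec.zero i x r h2⟩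
    | out c => exact c.elim
  | seq p q ihp ihq =>
    obtain ⟨R1, h1⟩ := ihp
    obtain ⟨R2, h2⟩ := ihq
    refine ⟨max R1 R2, fun R hR x t a r w s' h => ?_⟩
    cases h with
    | seq ha hb =>
      obtain ⟨a1, x1, r1, a2, a3, a4, a5⟩ := h1 R ((le_max_left _ _).trans hR) _ _ _ _ _ _ ha
      subst a2
      obtain ⟨b1, x2, r2, b2, b3, b4, b5⟩ := h2 R ((le_max_right _ _).trans hR) _ _ _ _ _ _ hb
      subst a1 b1
      exact ⟨rfl, x2, r2, b2, fun i hi => (b3 i hi).trans (a3 i hi), a4.trans b4,
        fun h => MExec.seq (a5 (by omega)) (b5 (by omega))⟩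
  | alt p q ihp ihq =>
    obtain ⟨R1, h1⟩ := ihp
    obtain ⟨R2, h2⟩ := ihq
    refine ⟨max R1 R2, fun R hR x t a r w s' h => ?_⟩
    cases h with
    | altl h =>
      obtain ⟨a1, x1, r1, a2, a3, a4, a5⟩ := h1 R ((le_max_left _ _).trans hR) _ _ _ _ _ _ h
      exact ⟨a1, x1, r1, a2, a3, a4, fun h => MExec.altl (a5 h)⟩
    | altr h =>
      obtain ⟨a1, x1, r1, a2, a3, a4, a5⟩ := h2 R ((le_max_right _ _).trans hR) _ _ _ _ _ _ h
      exact ⟨a1, x1, r1, a2, a3, a4, fun h => MExec.altr (a5 h)⟩
  | star p ih =>
    obtain ⟨R1, h1⟩ := ih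
    refine ⟨R1, fun R hR x t a r w s' h => ?_⟩
    refine star_ind (C := fun s w s' => ∀ (x t : ℕ) (a r : ℕ → ℕ), s = st x t a r →
      w = [] ∧ ∃ (x' : ℕ) (r' : ℕ → ℕ), s' = st x' t a r' ∧ (∀ i, R ≤ i → r' i = r i) ∧
        x + ∑ i ∈ Finset.range R, r i ≤ x' + ∑ i ∈ Finset.range R, r' i ∧
        (x' + ∑ i ∈ Finset.range R, r' i = x + ∑ i ∈ Finset.range R, r i →
          MExec (.star p) (x, r) (x', r'))) ?_ ?_ h x t a r rfl
    · intro s x t a r hs
      exact ⟨rfl, x, r, hs, fun _ _ => rfl, le_rfl, fun _ => MExec.star_nil _⟩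
    · intro s t' u w y ha _ hC x t a r hs
      subst hs
      obtain ⟨a1, x1, r1, a2, a3, a4, a5⟩ := h1 R hR _ _ _ _ _ _ ha
      obtain ⟨b1, x2, r2, b2, b3, b4, b5⟩ := hC _ _ _ _ a2
      subst a1 b1
      exact ⟨rfl, x2, r2, b2, fun i hi => (b3 i hi).trans (a3 i hi), a4.trans b4,
        fun h => MExec.star_cons (a5 (by omega)) (b5 (by omega))⟩

end Pool.Agent.W52.FG.E1
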