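import Pool.Agent.W937.FG.Stm

set_option autoImplicit false

/-! FG-G3: only finitely many registers are used. -/

namespace Pool.Agent.W52.FG.G3

open Function Pool.Agent.W937.FG

variable {T K K' : Type}

/-- rename the registers of an operation -/
def mapO (f : K' → K) : Op T K' → Op T K
  | .nop => .nop
  | .inc i => .inc (f i)
  | .dec i => .dec (f i)
  | .zero i => .zero (f i)
  | .out c => .out c

/-- rename the registers of a program -/
def mapP (f : K' → K) : Prog T K' → Prog T K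
  | .op o => .op (mapO f o)
  | .seq p q => .seq (mapP f p) (mapP f q)
  | .alt p q => .alt (mapP f p) (mapP f q)
  | .star p => .star (mapP f p)

/-- induction for runs of a star -/
theorem star_ind [DecidableEq K] {e : Bool} {p : Prog T K}
    {C : (K → ℕ) → List T → (K → ℕ) → Prop} (h0 : ∀ s, C s [] s)
    (h1 : ∀ s t u w x, Exec e p s w t → Exec e (.star p) t x u → C t x u → C s (w ++ x) u)
    {s : K → ℕ} {w : List T} {s' : K → ℕ} (h : Exec e (.star p) s w s') : C s w s' := by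
  generalize hq : Prog.star p = q at h
  induction h with
  | op h => cases hq
  | seq h1 h2 _ _ => cases hq
  | altl h _ => cases hq
  | altr h _ => cases hq
  | star_nil => exact h0 _
  | star_cons ha hb _ ihb =>
    cases hq
    exact h1 _ _ _ _ _ ha hb (ihb rfl)

theorem op_fwd [DecidableEq K] [DecidableEq K'] {f : K' → K} (hf : Injective f) {e : Bool}
    {o : Op T K'} {s : K → ℕ} {w : List T} {s' : K → ℕ} (h : ExecO e (mapO f o) s w s') :
    (∀ i, i ∉ Set.range f → s' i = s i) ∧ ExecO e o (s ∘ f) w (s' ∘ f) := by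
  have hne : ∀ i j, i ∉ Set.range f → i ≠ f j := fun i j hi h => hi ⟨j, h.symm⟩
  cases o with
  | nop =>
    obtain ⟨h1, h2⟩ := h
    subst h2
    exact ⟨fun _ _ => rfl, h1, rfl⟩
  | inc i =>
    obtain ⟨h1, h2⟩ := h
    subst h2
    refine ⟨fun j hj => update_of_ne (hne j i hj) _ _, h1, ?_⟩
    rw [update_comp_eq_of_injective _ hf]
    rfl
  | dec i =>
    obtain ⟨h1, h2 | h2⟩ := h
    · obtain ⟨h2, h3⟩ := h2
      subst h3
      refine ⟨fun j hj => update_of_ne (hne j i hj) _ _, h1, Or.inl ⟨h2, ?_⟩⟩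
      rw [update_comp_eq_of_injective _ hf]
      rfl
    · obtain ⟨h2, h3⟩ := h2
      subst h3
      exact ⟨fun _ _ => rfl, h1, Or.inr ⟨h2, rfl⟩⟩
  | zero i =>
    obtain ⟨h1, h2, h3⟩ := h
    subst h3
    exact ⟨fun _ _ => rfl, h1, h2, rfl⟩
  | out c =>
    obtain ⟨h1, h2⟩ := h
    subst h2
    exact ⟨fun _ _ => rfl, h1, rfl⟩

theorem fwd [DecidableEq K] [DecidableEq K'] {f : K' → K} (hf : Injective f) {e : Bool}
    (p : Prog T K') : ∀ (s : K → ℕ) (w : List T) (s' : K → ℕ), Exec e (mapP f p) s w s' →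
      (∀ i, i ∉ Set.range f → s' i = s i) ∧ Exec e p (s ∘ f) w (s' ∘ f) := by
  induction p with
  | op o =>
    intro s w s' h
    cases h with
    | op h =>
      obtain ⟨h1, h2⟩ := op_fwd hf h
      exact ⟨h1, Exec.op h2⟩
  | seq p q ihp ihq =>
    intro s w s' h
    cases h with
    | seq ha hb =>
      obtain ⟨a1, a2⟩ := ihp _ _ _ ha
      obtain ⟨b1, b2⟩ := ihq _ _ _ hb
      exact ⟨fun i hi => (b1 i hi).trans (a1 i hi), Exec.seq a2 b2⟩
  | alt p q ihp ihq =>
    intro s w s' h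
    cases h with
    | altl h =>
      obtain ⟨a1, a2⟩ := ihp _ _ _ h
      exact ⟨a1, Exec.altl a2⟩
    | altr h =>
      obtain ⟨a1, a2⟩ := ihq _ _ _ h
      exact ⟨a1, Exec.altr a2⟩
  | star p ih =>
    intro s w s' h
    refine star_ind (C := fun s w s' => (∀ i, i ∉ Set.range f → s' i = s i) ∧
      Exec e (.star p) (s ∘ f) w (s' ∘ f)) ?_ ?_ h
    · intro s
      exact ⟨fun _ _ => rfl, Exec.star_nil⟩
    · intro s t u w x ha _ hC
      obtain ⟨a1, a2⟩ := ih _ _ _ ha
      exact ⟨fun i hi => (hC.1 i hi).trans (a1 i hi), Exec.star_cons a2 hC.2⟩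

theorem op_bwd [DecidableEq K] [DecidableEq K'] {f : K' → K} (hf : Injective f) {e : Bool}
    {o : Op T K'} {u : K' → ℕ} {w : List T} {u' : K' → ℕ} (h : ExecO e o u w u')
    (s : K → ℕ) (hs : s ∘ f = u) :
    ∃ s', s' ∘ f = u' ∧ (∀ i, i ∉ Set.range f → s' i = s i) ∧ ExecO e (mapO f o) s w s' := by
  have hne : ∀ i j, i ∉ Set.range f → i ≠ f j := fun i j hi h => hi ⟨j, h.symm⟩
  subst hs
  cases o with
  | nop =>
    obtain ⟨h1, h2⟩ := h
    exact ⟨s, h2.symm, fun _ _ => rfl, h1, rfl⟩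
  | inc i =>
    obtain ⟨h1, h2⟩ := h
    refine ⟨update s (f i) (s (f i) + 1), ?_, fun j hj => update_of_ne (hne j i hj) _ _, h1, rfl⟩
    rw [update_comp_eq_of_injective _ hf, h2]
    rfl
  | dec i =>
    obtain ⟨h1, h2 | h2⟩ := h
    · obtain ⟨h2, h3⟩ := h2
      refine ⟨update s (f i) (s (f i) - 1), ?_, fun j hj => update_of_ne (hne j i hj) _ _, h1,
        Or.inl ⟨h2, rfl⟩⟩
      rw [update_comp_eq_of_injective _ hf, h3]
      rfl
    · obtain ⟨h2, h3⟩ := h2
      exact ⟨s, h3.symm, fun _ _ => rfl, h1, Or.inr ⟨h2, rfl⟩⟩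
  | zero i =>
    obtain ⟨h1, h2, h3⟩ := h
    exact ⟨s, h3.symm, fun _ _ => rfl, h1, h2, rfl⟩
  | out c =>
    obtain ⟨h1, h2⟩ := h
    exact ⟨s, h2.symm, fun _ _ => rfl, h1, rfl⟩

theorem bwd [DecidableEq K] [DecidableEq K'] {f : K' → K} (hf : Injective f) {e : Bool}
    {p : Prog T K'} {u : K' → ℕ} {w : List T} {u' : K' → ℕ} (h : Exec e p u w u') :
    ∀ s : K → ℕ, s ∘ f = u →
      ∃ s', s' ∘ f = u' ∧ (∀ i, i ∉ Set.range f → s' i = s i) ∧ Exec e (mapP f p) s w s' := by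
  induction h with
  | op h =>
    intro s hs
    obtain ⟨s', h1, h2, h3⟩ := op_bwd hf h s hs
    exact ⟨s', h1, h2, Exec.op h3⟩
  | seq _ _ iha ihb =>
    intro s hs
    obtain ⟨t, a1, a2, a3⟩ := iha s hs
    obtain ⟨s', b1, b2, b3⟩ := ihb t a1
    exact ⟨s', b1, fun i hi => (b2 i hi).trans (a2 i hi), Exec.seq a3 b3⟩
  | altl _ ih =>
    intro s hs
    obtain ⟨t, a1, a2, a3⟩ := ih s hs
    exact ⟨t, a1, a2, Exec.altl a3⟩
  | altr _ ih =>
    intro s hs
    obtain ⟨t, a1, a2, a3⟩ := ih s hs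
    exact ⟨t, a1, a2, Exec.altr a3⟩
  | star_nil =>
    intro s hs
    exact ⟨s, hs, fun _ _ => rfl, Exec.star_nil⟩
  | star_cons _ _ iha ihb =>
    intro s hs
    obtain ⟨t, a1, a2, a3⟩ := iha s hs
    obtain ⟨s', b1, b2, b3⟩ := ihb t a1
    exact ⟨s', b1, fun i hi => (b2 i hi).trans (a2 i hi), Exec.star_cons a3 b3⟩

/-- registers of an operation -/
def regsO [DecidableEq K] : Op T K → Finset K
  | .nop => ∅
  | .inc i => {i}
  | .dec i => {i}
  | .zero i => {i}
  | .out _ => ∅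

/-- registers of a program -/
def regs [DecidableEq K] : Prog T K → Finset K
  | .op o => regsO o
  | .seq p q => regs p ∪ regs q
  | .alt p q => regs p ∪ regs q
  | .star p => regs p

theorem lift_op [DecidableEq K] (I : Finset K) (o : Op T K) (h : regsO o ⊆ I) :
    ∃ o' : Op T {i // i ∈ I}, mapO Subtype.val o' = o := by
  cases o with
  | nop => exact ⟨.nop, rfl⟩
  | inc i => exact ⟨.inc ⟨i, h (Finset.mem_singleton_self i)⟩, rfl⟩
  | dec i => exact ⟨.dec ⟨i, h (Finset.mem_singleton_self i)⟩, rfl⟩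
  | zero i => exact ⟨.zero ⟨i, h (Finset.mem_singleton_self i)⟩, rfl⟩
  | out c => exact ⟨.out c, rfl⟩

theorem lift_prog [DecidableEq K] (I : Finset K) (p : Prog T K) (h : regs p ⊆ I) :
    ∃ p' : Prog T {i // i ∈ I}, mapP Subtype.val p' = p := by
  induction p with
  | op o =>
    obtain ⟨o', h1⟩ := lift_op I o h
    exact ⟨.op o', by rw [mapP, h1]⟩
  | seq p q ihp ihq =>
    obtain ⟨p', h1⟩ := ihp (Finset.subset_union_left.trans h)
    obtain ⟨q', h2⟩ := ihq (Finset.subset_union_right.trans h)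
    exact ⟨.seq p' q', by rw [mapP, h1, h2]⟩
  | alt p q ihp ihq =>
    obtain ⟨p', h1⟩ := ihp (Finset.subset_union_left.trans h)
    obtain ⟨q', h2⟩ := ihq (Finset.subset_union_right.trans h)
    exact ⟨.alt p' q', by rw [mapP, h1, h2]⟩
  | star p ih =>
    obtain ⟨p', h1⟩ := ih h
    exact ⟨.star p', by rw [mapP, h1]⟩

theorem main : PropG3 := by
  intro T K _ p
  obtain ⟨p', hp'⟩ := lift_prog (regs p) p (Finset.Subset.refl _)
  refine ⟨{i // i ∈ regs p}, inferInstance, inferInstance, p', fun w => ⟨fun h => ?_, fun h => ?_⟩⟩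
  · rw [← hp'] at h
    exact (fwd Subtype.val_injective p' _ _ _ h).2
  · obtain ⟨s', h1, h2, h3⟩ := bwd (K := K) Subtype.val_injective h (fun _ => 0) rfl
    have h4 : s' = fun _ => 0 := by
      funext i
      by_cases hi : i ∈ regs p
      · exact congrFun h1 ⟨i, hi⟩
      · refine h2 i ?_
        rintro ⟨j, rfl⟩
        exact hi j.2
    rw [hp', h4] at h3
    exact h3

end Pool.Agent.W52.FG.G3
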